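import Pool.Agent.H21.Un.Uncond

/-!
# MP_d2121a_nt : Artin's holomorphy conjecture, reduction of the poles to bounded projective images

Let `G` be a finite group and let `θ` be a Heilbronn class function on `G` of degree at most `r`,
that is a class function whose inner products with all characters induced from linear characters of
subgroups are natural numbers.

* Group theory (no hypothesis).  Suppose that the inner product of `θ` with some character of `G` is
  not a nonnegative real number.
  - There are a subgroup `H` of `G` and an irreducible representation `σ` of `H` such that
    `⟨θ, Ind σ⟩` is not a nonnegative real number, and such that `H` has subgroups `M ≤ A ≤ T` with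
    `σ` trivial on `M` and scalar on `A`, `T` of index at most
    `J(r) = (jR r ^ r) ^ jR r * jR r ^ jR r * r ^ r`, and the centraliser in `T / A` of a product of
    at most `r - 1` nonabelian simple groups trivial; these simple groups are not rigid (not `A_n`,
    `n ≥ 20`, `n ≥ r + 2`, `r + 3` if `n` is prime, not `PSL_n(q)`, `n ≥ 5`, `n > r`, not symplectic,
    unitary or orthogonal of dimension at least `(2 r + 10) (2 (r + 20) (4 r + 16) + 18)`, ...).  So
    the projective image of `σ` is bounded up to the automorphisms of at most `r - 1` such groups.
  - Either there are `H` and `σ` such that moreover `σ` is scalar on a subgroup of index at most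
    `bS r`, or there are a subgroup `B` of `G` and a surjection of `B` onto a quasisimple group whose
    kernel `N` satisfies `⟨θ, Ind_B 1⟩ ≠ ⟨θ, Ind_N 1⟩`.
  - The first alternative holds if all nonabelian composition factors of `G` are large with respect
    to `r`, for example if `G` is solvable; and there are `H` and `σ`, scalar on a subgroup of index
    at most `jB r B`, if these composition factors are alternating groups, or groups `PSL_n(q)` with
    `n ≥ 5`, `n > r`, or symplectic, unitary or orthogonal groups of large dimension as above, or
    groups of order at most `B` (and in some further cases).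
* L-functions (no hypothesis).  Let `L/K` be Galois and `s₀ ≠ 1`.  Suppose that `ζ_L` vanishes at
  `s₀` to order at most `r` and that some Artin L-function of `L/K` has a pole at `s₀`.  Then
  - there are a field `E` between `K` and `L` and an irreducible character `σ` of `Gal(L/E)` with a
    projective image as in the first case above such that `L(s, σ)` has a pole at `s₀`;
  - either there are `E` and `σ` such that moreover the projective image has order at most `bS r`, or
    there are fields `K ≤ E ≤ E' ≤ L` such that `E'/E` is Galois with quasisimple Galois group and
    the zeta function of `E` has a smaller order at `s₀` than that of `E'`;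
  - the first alternative holds under the same conditions on `Gal(L/K)` as above, and the projective
    image has order at most `jB r B` in the last case.

The bounds are explicit; `bS r = r ^ 2 * ∏ i < log2 (r ^ 2), (r ^ 2 - 2 ^ i)`.
-/

open Pool.Agent.H7.Artin Pool.Agent.H24.HL Pool.Agent.H42.Hb Pool.Agent.H21.Un

namespace Pool.Agent.H42.Kept.PoleStructure

theorem result (r : ℕ) :
    -- the group theoretic theorem
    (∀ (G : Type) [Group G] [Fintype G] (θ : G → ℂ), IsHeilbronn θ → DegLe θ r →
      NotPositive θ →
      LayerNeg θ r ∧ (SmallNeg θ (bS r) ∨ QuasisimpleStep θ) ∧
        (LargeFactors r G → SmallNeg θ (bS r)) ∧ ∀ B : ℕ, Factors r B G → SmallNeg θ (jB r B)) ∧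
    -- Artin L-functions
    (∀ (K L : Type) [Field K] [NumberField K] [Field L] [NumberField L] [Algebra K L]
      [IsGalois K L] (s₀ : ℂ), s₀ ≠ 1 → DedekindOrderLe L s₀ r → HasPole K L s₀ →
      LayerPole K L s₀ r ∧ (SmallPole K L s₀ (bS r) ∨ DedekindJump K L s₀) ∧
        (LargeFactors r Gal(L/K) → SmallPole K L s₀ (bS r)) ∧
        ∀ B : ℕ, Factors r B Gal(L/K) → SmallPole K L s₀ (jB r B)) :=
  ⟨fun _ _ _ _ hθ hr hneg => notPositive_layer hθ.heil hr hneg,
    fun K L _ _ _ _ _ _ s₀ hs₀ hζ hp => hasPole_uncond K L s₀ r hs₀ hζ hp⟩

end Pool.Agent.H42.Kept.PoleStructure
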