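import Pool.Agent.H42.Fam.Main
import Pool.Agent.H31.CF.Zeta

/-!
# MP_d2121a_nt : Artin's holomorphy conjecture, alternating, symmetric, linear and symplectic groups
and the order of `ζ_L`

We say that the degree `r` is small for the finite group `G` (`SmallFor r G`) if
* `G` is `A_n`, `n ≥ 18`, or `S_n`, `n ≥ 11`, and `r < m(n)`, where `m(n) = n - 2` if `n` is prime
  and `m(n) = n - 1` if not;
* or `G` is a quotient of a group `SL_n(q) ≤ H ≤ GL_n(q)` (for example `SL_n(q)`, `PSL_n(q)`,
  `GL_n(q)`, `PGL_n(q)`), where `q` is a power of the prime `p`, and `2 ≤ n`, `p ≤ n`,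
  `r < q ^ (n - 1) - 1`, or `3 ≤ n`, `r < n`;
* or `G` is a quotient of `Sp_{2n}(q)` (for example `Sp_{2n}(q)`, `PSp_{2n}(q)`, `SL_2(q)`), and
  `p = 2` and `r < (q ^ n - 1) * (q ^ n - q) / (2 * (q + 1))` (for `n = 1`: `r < q - 1`), or `p` is
  odd, `p ≤ n` and `r < (q ^ n - 1) / 2`, or `p` is odd, `2 ≤ n` and `r < 2 * n`.  The first two
  bounds are the least degrees of nontrivial characters of `Sp_{2n}(q)`, so that they are exact.

* Group theory: if `r` is small for `G`, every Heilbronn class function of degree `r` on `G` is a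
  sum of linear characters.  For `A_n` and `S_n` the bound `m(n)` is exact: there is a Heilbronn
  class function of degree `m(n)` which is not the character of any representation.
* L-functions (no hypothesis; the theorems of Artin, Brauer and Hecke are proved in
  `Pool.Agent.H31.CF`): let `L/K` be a Galois extension of number fields with group `G` and
  `s₀ ≠ 1`.  If the Dedekind zeta function `ζ_L` vanishes at `s₀` to order `r` and `r` is small for
  `G`, then for every irreducible `χ` the Artin L-function `L(s, χ)` has a meromorphic continuation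
  which is holomorphic at `s₀`, and it is nonzero there unless `χ(1) = 1`.
-/

open NumberField Module
open Pool.Agent.H7.Artin Pool.Agent.H24.HL Pool.Agent.H72.Exact Pool.Agent.H42.Fam
open Pool.Agent.H31.CF (IsZetaContinuation)

namespace Pool.Agent.Results.MP_d2121a_nt.SimpleFamilies

theorem result :
    -- Heilbronn class functions of small degree are sums of linear characters
    (∀ (r : ℕ) (G : Type) [Group G] [Fintype G] (θ : G → ℂ),
      SmallFor r G → IsHeilbronn θ → θ 1 = r → IsSumLinear θ) ∧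
    -- the bound is exact for alternating and symmetric groups
    (∀ (n : ℕ) (G : Type) [Group G] [Fintype G], IsAltSym n G →
      ∃ θ : G → ℂ, IsHeilbronn θ ∧ θ 1 = critDegree n ∧ ¬ IsCharacter θ) ∧
    -- Artin L-functions
    (∀ (r : ℕ) (K L : Type) [Field K] [NumberField K] [Field L] [NumberField L] [Algebra K L]
      [IsGalois K L] (s₀ : ℂ) (Z : ℂ → ℂ), SmallFor r Gal(L/K) → s₀ ≠ 1 →
      IsZetaContinuation L Z → meromorphicOrderAt Z s₀ = (r : ℤ) →
      ∀ (V : Type) [AddCommGroup V] [Module ℂ V] [FiniteDimensional ℂ V]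
        (ρ : Representation ℂ Gal(L/K) V), ρ.IsIrreducible →
        (∃ Λ : ℂ → ℂ, IsContinuation K L ρ Λ) ∧
        ∀ Λ : ℂ → ℂ, IsContinuation K L ρ Λ →
          0 ≤ meromorphicOrderAt Λ s₀ ∧ (finrank ℂ V ≠ 1 → meromorphicOrderAt Λ s₀ = 0)) := by
  refine ⟨fun r G _ _ θ hG hθ hr => family_main hG hθ.heil hr, fun n G _ _ hG => altSym_exact hG,
    ?_⟩
  intro r K L _ _ _ _ _ _ s₀ Z hG hs₀ hZ' hord V _ _ _ ρ hρ
  obtain ⟨hcont, hmono'⟩ := Pool.Agent.H31.CF.artin_brauer_hecke K L
  have hmono := hmono' s₀ hs₀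
  refine ⟨hcont V ρ, fun Λ hΛ => ?_⟩
  have hZ : IsContinuation K L (ltr Gal(L/K)) Z :=
    (Pool.Agent.H31.CF.isContinuation_ltr_iff K L Z).2 hZ'
  have key := addFn_linear (ordFn K L hcont s₀) (fun H ψ => by
    obtain ⟨F, hF⟩ := hcont _ (indRep H ψ)
    have h1 := hmono _ (indRep H ψ) F ⟨H, ψ, funext (indRep_character H ψ)⟩ hF
    rw [ordFn_spec K L hcont s₀ _ F hF] at h1
    exact_mod_cast h1) (fun θ hθ r' hr' hreg => by
    refine family_main hG hθ ?_
    rw [ordFn_spec K L hcont s₀ _ Z hZ, hreg] at hord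
    have h2 : (r' : ℤ) = (r : ℤ) := WithTop.coe_injective hord
    rw [hr']
    exact_mod_cast h2) ρ
  rw [ordFn_spec K L hcont s₀ ρ Λ hΛ]
  refine ⟨by exact_mod_cast key.1, fun hV => ?_⟩
  rw [key.2 hV]
  rfl

end Pool.Agent.Results.MP_d2121a_nt.SimpleFamilies
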