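import Pool.Agent.H21.Un.Uncond

/-!
# MP_d2121a_nt : Artin's holomorphy conjecture, the field of definition of a zero of `ζ_L`

A Heilbronn class function on a finite group `G` is a class function whose inner products with all
characters induced from linear characters of subgroups are natural numbers.

* Group theory (no hypothesis).  For every Heilbronn class function `θ` on every finite group `G`
  there is a normal subgroup `M` such that `θ` is constant on the cosets of `M`, and a normal
  subgroup `N` satisfies `θ = θ(1)` on `N` if and only if `N ≤ M`.  Let `θ(1) ≤ r`.
  - Structure of `G / M` for every `G` (`HasLayer`): there are normal subgroups `M ≤ A ≤ T` of `G`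
    such that `T` has index at most `J(r) = (jR r ^ r) ^ jR r * jR r ^ jR r * r ^ r`, `A / M` is
    central in `T / M`, and the centraliser in `T / A` of a product of at most `r - 1` nonabelian
    simple groups, permuted by `G`, is trivial; these simple groups are the images of pairwise
    commuting quasisimple subgroups `E / M` of `T / M` on which `θ` is not constant, and they are
    not rigid: they are not alternating groups of degree `n ≥ 20` with `n ≥ r + 2` (`n ≥ r + 3` if
    `n` is prime), nor `PSL_n(q)` with `n ≥ 5` and `n > r` (or `p ≤ n`, `r + 1 < q ^ (n - 1)`, for
    `q` a power of the prime `p`), nor symplectic, unitary or orthogonal groups over finite fields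
    of dimension at least `(2 r + 10) (2 (r + 20) (4 r + 16) + 18)` (`LargeClassical r`), nor groups
    whose perfect central extensions only have constant Heilbronn class functions of degree at most
    `r`.
  - Suppose that every nonabelian composition factor `S` of `G` is large with respect to `r`: `S` is
    an alternating group of degree `n ≥ 23` with `n ≥ r + 2` (`n ≥ r + 3` if `n` is prime), or
    `PSL_n(q)` with `n ≥ 5` and `n > r`, or any group of order greater than
    `(r ^ 2) ^ (log2 (r ^ 2))` such that every Heilbronn class function of degree at most `r` on a
    perfect central extension of `S` is constant.  Then `G / M` is solvable.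
  - Suppose that every nonabelian composition factor of `G` is an alternating group (of any degree),
    or rigid in the above sense, or a group of order at most `B`.  Then `G / M` has an abelian
    normal subgroup of index at most `jB r B`.
* L-functions (no hypothesis).  Let `L/K` be any finite Galois extension of number fields and
  `s₀ ≠ 1` a complex number.  All Artin L-functions of `L/K` have meromorphic continuations (the
  theorems of Artin, Brauer and Hecke are proved in `H31/CF/Main.lean`), and there is a Galois
  extension `F₀/K` inside `L/K` such that
  - for `F/K` Galois inside `L/K`, `ζ_F` and `ζ_L` have the same order at `s₀` if and only if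
    `F₀ ≤ F`;
  - `L(s, χ)` is holomorphic and nonzero at `s₀` for every irreducible character `χ` of `Gal(L/K)`
    which is nontrivial on `Gal(L/F₀)`;
  - if `ζ_L` has order at most `r` at `s₀`, then `Gal(F₀/K) = Gal(L/K) / Gal(L/F₀)` has the
    structure described above (`DedekindLayer`), and the fixed field of each of the quasisimple
    subgroups has a zeta function of smaller order at `s₀` than `ζ_{F₀}`;
  - if moreover the nonabelian composition factors of `Gal(L/K)` are large with respect to `r`, then
    `Gal(F₀/K)` is solvable and `L(s, χ)` is holomorphic and nonzero at `s₀` for every irreducible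
    `χ` with nonsolvable image;
  - if they are as in the last case above, then `Gal(F₀/K)` has an abelian normal subgroup of index
    at most `jB r B`.
-/

open Pool.Agent.H7.Artin Pool.Agent.H24.HL Pool.Agent.H42.Hb Pool.Agent.H21.Un

namespace Pool.Agent.Results.MP_d2121a_nt.ZeroStructure

theorem result :
    -- the group theoretic theorem
    (∀ (G : Type) [Group G] [Fintype G] (θ : G → ℂ), IsHeilbronn θ →
      ∃ M : Subgroup G, IsKernelOf θ M ∧ (∀ r : ℕ, DegLe θ r → HasLayer θ r M) ∧
        (∀ r : ℕ, DegLe θ r → LargeFactors r G → SolvableQuotient M) ∧
        ∀ r B : ℕ, DegLe θ r → Factors r B G → AbelianByBounded M (jB r B)) ∧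
    -- Artin L-functions
    (∀ (K L : Type) [Field K] [NumberField K] [Field L] [NumberField L] [Algebra K L]
      [IsGalois K L] (s₀ : ℂ), s₀ ≠ 1 →
      AllContinue K L ∧ ∃ F₀ : IntermediateField K L, IsDedekindZeroField K L s₀ F₀ ∧
        (∀ r : ℕ, DedekindOrderLe L s₀ r → DedekindLayer K L s₀ r F₀) ∧
        (∀ r : ℕ, DedekindOrderLe L s₀ r → LargeFactors r Gal(L/K) →
          SolvableQuotient F₀.fixingSubgroup ∧ NonsolvableTrivial K L s₀) ∧
        ∀ r B : ℕ, DedekindOrderLe L s₀ r → Factors r B Gal(L/K) →
          AbelianByBounded F₀.fixingSubgroup (jB r B)) :=
  ⟨fun _ _ _ _ hθ => group_structure hθ.heil,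
    fun K L _ _ _ _ _ _ s₀ hs₀ => zeta_structure_uncond K L s₀ hs₀⟩

end Pool.Agent.Results.MP_d2121a_nt.ZeroStructure
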